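import Mathlib

namespace Pool.Agent.Results.MP_155d71_an.NoFixedPoint

open Filter Topology BoundedContinuousFunction

/-- Membership in `LUC(S)`: the bounded continuous `f` is such that `s ↦ ℓ_s f` is norm
continuous, where `(ℓ_s f)(t) = f (s t)`. -/
def IsLUC {S : Type} [Semigroup S] [TopologicalSpace S] (f : S →ᵇ ℂ) : Prop :=
  ∀ s₀ : S, ∀ ε : ℝ, 0 < ε → ∀ᶠ s in 𝓝 s₀, ∀ t, ‖f (s * t) - f (s₀ * t)‖ ≤ ε

/-- `m` restricted to `LUC(S)` is a mean: linear, `m 1 = 1` and norm at most one. -/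
def IsMean {S : Type} [Semigroup S] [TopologicalSpace S] (m : (S →ᵇ ℂ) → ℂ) : Prop :=
  (∀ f g, IsLUC f → IsLUC g → m (f + g) = m f + m g) ∧
    (∀ (c : ℂ) f, IsLUC f → m (c • f) = c * m f) ∧ m 1 = 1 ∧ ∀ f, IsLUC f → ‖m f‖ ≤ ‖f‖

/-- Extreme left amenability: a multiplicative left invariant mean on `LUC(S)`. -/
def ExtLeftAmenable (S : Type) [Semigroup S] [TopologicalSpace S] : Prop :=
  ∃ m : (S →ᵇ ℂ) → ℂ, IsMean m ∧
    (∀ (s : S) (f g : S →ᵇ ℂ), IsLUC f → (∀ t, g t = f (s * t)) → m g = m f) ∧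
    ∀ f g, IsLUC f → IsLUC g → m (f * g) = m f * m g

/-- The weak topology of `E` restricted to the subset `C`. -/
@[reducible] noncomputable def weakTop (𝕜 : Type) [RCLike 𝕜] {E : Type} [NormedAddCommGroup E] [NormedSpace 𝕜 E]
    (C : Set E) : TopologicalSpace C :=
  TopologicalSpace.induced (fun x : C => toWeakSpace 𝕜 E (x : E)) inferInstance

/-- `C` is weakly closed. -/
def WeaklyClosed (𝕜 : Type) [RCLike 𝕜] {E : Type} [NormedAddCommGroup E] [NormedSpace 𝕜 E]
    (C : Set E) : Prop :=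
  IsClosed (toWeakSpace 𝕜 E '' C)

/-- `A` is relatively weakly compact: its weak closure is weakly compact. -/
def RelWeaklyCompact (𝕜 : Type) [RCLike 𝕜] {E : Type} [NormedAddCommGroup E] [NormedSpace 𝕜 E]
    (A : Set E) : Prop :=
  IsCompact (closure (toWeakSpace 𝕜 E '' A))

/-- `(s, x) ↦ T s x` is separately continuous for the weak topology on `C`. -/
def WeaklyCont (𝕜 : Type) [RCLike 𝕜] {E : Type} [NormedAddCommGroup E] [NormedSpace 𝕜 E]
    {S : Type} [TopologicalSpace S] {C : Set E} (T : S → C → C) : Prop :=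
  (∀ s, @Continuous C C (weakTop 𝕜 C) (weakTop 𝕜 C) (T s)) ∧
    ∀ x, @Continuous S C _ (weakTop 𝕜 C) fun s => T s x

abbrev X := OnePoint ℤ

def shift (n : ℤ) : X → X := OnePoint.map (fun k => k + n)

theorem shift_cont (n : ℤ) : Continuous (shift n) :=
  ((Homeomorph.addRight n).onePointCongr).continuous

theorem shift_shift (m n : ℤ) (x : X) : shift m (shift n x) = shift (n + m) x := by
  induction x using OnePoint.rec with
  | infty => rfl
  | coe k => simp [shift, add_assoc]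

theorem shift_zero (x : X) : shift 0 x = x := by
  induction x using OnePoint.rec with
  | infty => rfl
  | coe k => simp [shift]

def SG : Type := {g : X → X // (∃ n, g = shift n) ∨ ∃ x, g = fun _ => x}

instance : TopologicalSpace SG := inferInstanceAs (TopologicalSpace {g : X → X // _})

instance : T2Space SG := inferInstanceAs (T2Space {g : X → X // _})

instance : Semigroup SG where
  mul s t := ⟨fun x => s.1 (t.1 x), by
    rcases s with ⟨s, ⟨m, rfl⟩ | ⟨x, rfl⟩⟩
    · rcases t with ⟨t, ⟨n, rfl⟩ | ⟨y, rfl⟩⟩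
      · exact Or.inl ⟨n + m, funext fun x => shift_shift m n x⟩
      · exact Or.inr ⟨shift m y, rfl⟩
    · exact Or.inr ⟨x, rfl⟩⟩
  mul_assoc _ _ _ := rfl

theorem mul_val (s t : SG) (x : X) : (s * t).1 x = s.1 (t.1 x) := rfl

theorem val_cont (s : SG) : Continuous s.1 := by
  rcases s with ⟨s, ⟨m, rfl⟩ | ⟨x, rfl⟩⟩
  · exact shift_cont m
  · exact continuous_const

theorem eval_cont (x : X) : Continuous fun s : SG => s.1 x :=
  (continuous_apply x).comp continuous_subtype_val

def sh (n : ℤ) : SG := ⟨shift n, Or.inl ⟨n, rfl⟩⟩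
def cst (x : X) : SG := ⟨fun _ => x, Or.inr ⟨x, rfl⟩⟩

theorem tendsto_coe : Tendsto (fun k : ℤ => (k : X)) cofinite (𝓝 OnePoint.infty) := by
  have := OnePoint.tendsto_coe_infty (X := ℤ)
  rwa [Filter.coclosedCompact_eq_cocompact, cocompact_eq_cofinite] at this

theorem sh_tendsto : Tendsto sh cofinite (𝓝 (cst OnePoint.infty)) := by
  refine tendsto_subtype_rng.2 (tendsto_pi_nhds.2 fun x => ?_)
  induction x using OnePoint.rec with
  | infty => exact tendsto_const_nhds
  | coe k =>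
    have h : Tendsto (fun n : ℤ => k + n) cofinite cofinite :=
      (add_right_injective k).tendsto_cofinite
    exact tendsto_coe.comp h

theorem luc_const (f : SG →ᵇ ℂ) (hf : IsLUC f) (t : SG) : f t = f (cst OnePoint.infty) := by
  apply eq_of_forall_dist_le
  intro ε hε
  obtain ⟨n, hn⟩ := (sh_tendsto.eventually (hf (cst OnePoint.infty) ε hε)).exists
  have h := hn (sh (-n) * t)
  have e1 : sh n * (sh (-n) * t) = t := by
    apply Subtype.ext; funext x
    show shift n (shift (-n) (t.1 x)) = t.1 x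
    rw [shift_shift, neg_add_cancel, shift_zero]
  have e2 : cst OnePoint.infty * (sh (-n) * t) = cst OnePoint.infty := rfl
  rw [e1, e2] at h
  rwa [dist_eq_norm]

theorem ela : ExtLeftAmenable SG := by
  refine ⟨fun f => f (cst OnePoint.infty), ⟨fun f g _ _ => rfl, fun c f _ => rfl, rfl,
    fun f _ => f.norm_coe_le_norm _⟩, ?_, fun f g _ _ => rfl⟩
  intro s f g hf h
  show g _ = f _
  rw [h, luc_const f hf]

section
variable (𝕜 : Type) [RCLike 𝕜]

abbrev H := lp (fun _ : ℤ => 𝕜) 2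

noncomputable def e (n : ℤ) : H 𝕜 := lp.single 2 n (1 : 𝕜)

theorem e_on : Orthonormal 𝕜 (e 𝕜) := by
  rw [orthonormal_iff_ite]
  intro i j
  simp [e, lp.inner_single_left, lp.single_apply, Pi.single_apply]

noncomputable def j (x : X) : H 𝕜 := OnePoint.rec 0 (e 𝕜) x

theorem j_infty : j 𝕜 OnePoint.infty = 0 := rfl
theorem j_coe (n : ℤ) : j 𝕜 (n : X) = e 𝕜 n := rfl

theorem j_inj : Function.Injective (j 𝕜) := by
  intro x y h
  have hne : ∀ n, e 𝕜 n ≠ 0 := fun n => (e_on 𝕜).ne_zero n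
  induction x using OnePoint.rec with
  | infty =>
    induction y using OnePoint.rec with
    | infty => rfl
    | coe k => exact absurd h.symm (hne k)
  | coe k =>
    induction y using OnePoint.rec with
    | infty => exact absurd h (hne k)
    | coe l =>
      have := (e_on 𝕜).linearIndependent.injective h
      rw [this]

theorem j_cont : Continuous fun x => toWeakSpace 𝕜 (H 𝕜) (j 𝕜 x) := by
  apply WeakBilin.continuous_of_continuous_eval
  intro φ
  change Continuous fun x => φ (j 𝕜 x)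
  rw [OnePoint.continuous_iff_from_discrete]
  obtain ⟨v, rfl⟩ := (InnerProductSpace.toDual 𝕜 (H 𝕜)).surjective φ
  have h1 := ((e_on 𝕜).inner_products_summable v).tendsto_cofinite_zero
  have h2 : Tendsto (fun i => ‖inner 𝕜 (e 𝕜 i) v‖) cofinite (𝓝 0) := by
    have := h1.sqrt
    simpa using this
  simp only [j_infty, map_zero]
  rw [tendsto_zero_iff_norm_tendsto_zero]
  refine h2.congr fun i => ?_
  simp only [Function.comp, j_coe, InnerProductSpace.toDual_apply_apply]
  exact norm_inner_symm _ _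

theorem j_dist (n : ℤ) (x y : X) :
    ‖j 𝕜 (shift n x) - j 𝕜 (shift n y)‖ = ‖j 𝕜 x - j 𝕜 y‖ := by
  have h1 : ∀ k, ‖e 𝕜 k‖ = 1 := (e_on 𝕜).1
  have h2 : ∀ k l, k ≠ l → ‖e 𝕜 k - e 𝕜 l‖ = √2 := by
    intro k l hkl
    have h3 := (e_on 𝕜).2 hkl
    have h4 := @norm_sub_sq 𝕜 _ _ _ _ (e 𝕜 k) (e 𝕜 l)
    simp only at h3
    rw [h3, h1, h1] at h4
    rw [← Real.sqrt_sq (norm_nonneg (e 𝕜 k - e 𝕜 l)), h4]
    norm_num
  induction x using OnePoint.rec with
  | infty =>
    induction y using OnePoint.rec with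
    | infty => rfl
    | coe k =>
      show ‖(0 : H 𝕜) - e 𝕜 (k + n)‖ = ‖(0 : H 𝕜) - e 𝕜 k‖
      simp [h1]
  | coe k =>
    induction y using OnePoint.rec with
    | infty =>
      show ‖e 𝕜 (k + n) - 0‖ = ‖e 𝕜 k - 0‖
      simp [h1]
    | coe l =>
      show ‖e 𝕜 (k + n) - e 𝕜 (l + n)‖ = ‖e 𝕜 k - e 𝕜 l‖
      by_cases hkl : k = l
      · simp [hkl]
      · rw [h2 k l hkl, h2 _ _ (by omega)]

end

/-- The fixed point statement fails, for real and for complex Banach spaces. -/
theorem result (𝕜 : Type) [RCLike 𝕜] :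
    ¬ ∀ (S : Type) [Semigroup S] [TopologicalSpace S] [T2Space S],
      (∀ s : S, Continuous fun t : S => s * t) → (∀ s : S, Continuous fun t : S => t * s) →
      ExtLeftAmenable S →
      ∀ (E : Type) [NormedAddCommGroup E] [NormedSpace 𝕜 E] [CompleteSpace E] (C : Set E),
        WeaklyClosed 𝕜 C →
        ∀ T : S → C → C, (∀ s t x, T (s * t) x = T s (T t x)) →
          (∀ s x y, ‖(T s x : E) - T s y‖ ≤ ‖(x : E) - y‖) →
          WeaklyCont 𝕜 T →
          (∃ c : C, RelWeaklyCompact 𝕜 (Set.range fun s => (T s c : E))) →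
          ∃ z : C, ∀ s, T s z = z := by
  intro h
  let C : Set (H 𝕜) := Set.range (j 𝕜)
  let q : X ≃ C := Equiv.ofInjective _ (j_inj 𝕜)
  have hq : ∀ x, (q x : H 𝕜) = j 𝕜 x := fun x => rfl
  have hemb : IsClosedEmbedding fun x => toWeakSpace 𝕜 (H 𝕜) (j 𝕜 x) :=
    (j_cont 𝕜).isClosedEmbedding ((toWeakSpace 𝕜 (H 𝕜)).injective.comp (j_inj 𝕜))
  have hrange : toWeakSpace 𝕜 (H 𝕜) '' C = Set.range fun x => toWeakSpace 𝕜 (H 𝕜) (j 𝕜 x) :=
    (Set.range_comp _ _).symm
  have hq1 : @Continuous X C _ (weakTop 𝕜 C) q := continuous_induced_rng.2 (j_cont 𝕜)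
  have hq2 : @Continuous C X (weakTop 𝕜 C) _ q.symm := by
    letI := weakTop 𝕜 C
    rw [hemb.isInducing.continuous_iff]
    have : (fun x => toWeakSpace 𝕜 (H 𝕜) (j 𝕜 x)) ∘ q.symm =
        fun x : C => toWeakSpace 𝕜 (H 𝕜) (x : H 𝕜) := by
      funext x
      simp only [Function.comp]
      rw [← hq, Equiv.apply_symm_apply]
    rw [this]
    exact continuous_induced_dom
  obtain ⟨z, hz⟩ := h SG
    (fun s => continuous_induced_rng.2 (continuous_pi fun x => (val_cont s).comp (eval_cont x)))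
    (fun s => continuous_induced_rng.2 (continuous_pi fun x => eval_cont (s.1 x)))
    ela (H 𝕜) C (by unfold WeaklyClosed; rw [hrange]; exact hemb.isClosed_range)
    (fun s x => q (s.1 (q.symm x))) (fun s t x => by simp [mul_val])
    (by
      intro s x y
      obtain ⟨x, rfl⟩ := q.surjective x
      obtain ⟨y, rfl⟩ := q.surjective y
      simp only [Equiv.symm_apply_apply, hq]
      rcases s with ⟨s, ⟨m, rfl⟩ | ⟨w, rfl⟩⟩
      · exact (j_dist 𝕜 m x y).le
      · simp)
    ⟨fun s => by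
      letI := weakTop 𝕜 C
      exact hq1.comp ((val_cont s).comp hq2),
    fun x => by
      letI := weakTop 𝕜 C
      exact hq1.comp (eval_cont _)⟩
    ⟨q OnePoint.infty, by
      refine IsCompact.closure_of_subset (isCompact_range (j_cont 𝕜)) ?_
      rintro _ ⟨_, ⟨s, rfl⟩, rfl⟩
      exact ⟨_, rfl⟩⟩
  have h1 := hz (cst OnePoint.infty)
  have h2 := hz (cst ((0 : ℤ) : X))
  have h3 : q OnePoint.infty = q ((0 : ℤ) : X) := h1.trans h2.symm
  exact OnePoint.infty_ne_coe _ (q.injective h3)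

end Pool.Agent.Results.MP_155d71_an.NoFixedPoint
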